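import Pool.Agent.H77.BD.Targets

/-!
# Row CDC of board bct_modules: the adjoint Chevalley group has the properties `CD`
-/

set_option autoImplicit false

open Set Matrix Pool.Agent.H77.BC Pool.Agent.H77.BD

namespace Pool.Agent.H76.BCT

variable {l : ℕ} {C : Matrix (Fin l) (Fin l) ℤ} {F : Type} [Field F]

/-- the root element as a permutation -/
def xp (hC : Cartan C) (hXAD : T_XAD) (β : Root C) (t : F) : Equiv.Perm (Sp C F) where
  toFun := Xf β t
  invFun := Xf β (-t)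
  left_inv v := by
    rw [(hXAD hC β (-t) t v).1, neg_add_cancel]
    exact (hXAD hC β 0 0 v).2
  right_inv v := by
    rw [(hXAD hC β t (-t) v).1, add_neg_cancel]
    exact (hXAD hC β 0 0 v).2

theorem xp_apply (hC : Cartan C) (hXAD : T_XAD) (β : Root C) (t : F) (v : Sp C F) :
    xp hC hXAD β t v = Xf β t v := rfl

/-- the root element in the group -/
def xg (hC : Cartan C) (hXAD : T_XAD) (β : Root C) (t : F) : Chev C F :=
  ⟨xp hC hXAD β t, Subgroup.subset_closure ⟨β, t, fun _ => rfl⟩⟩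

theorem xg_apply (hC : Cartan C) (hXAD : T_XAD) (β : Root C) (t : F) (v : Sp C F) :
    (xg hC hXAD β t : Equiv.Perm (Sp C F)) v = Xf β t v := rfl

/-- the diagonal elements as permutations -/
def dp (C : Matrix (Fin l) (Fin l) ℤ) (F : Type) [Field F] :
    (Fin l → Fˣ) →* Equiv.Perm (Sp C F) where
  toFun c :=
    { toFun := Dg c
      invFun := Dg c⁻¹
      left_inv := fun v => by rw [← Dg_mul, inv_mul_cancel, Dg_one]
      right_inv := fun v => by rw [← Dg_mul, mul_inv_cancel, Dg_one] }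
  map_one' := Equiv.ext fun v => Dg_one v
  map_mul' c d := Equiv.ext fun v => Dg_mul c d v

theorem dp_apply (c : Fin l → Fˣ) (v : Sp C F) : dp C F c v = Dg c v := rfl

theorem dp_single_mem (hC : Cartan C) (hXAD : T_XAD) (hXSL : T_XSL) (i : Fin l) (a : Fˣ) :
    dp C F (Pi.mulSingle i a) ∈ Chev C F := by
  have h1 : xp hC hXAD (sr hC i) (1 - (a : F)) * xp hC hXAD (ng (sr hC i)) 1 =
      xp hC hXAD (ng (sr hC i)) (1 / (a : F)) * dp C F (Pi.mulSingle i a) *
        xp hC hXAD (sr hC i) ((1 - (a : F)) / (a : F)) := by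
    refine Equiv.ext fun v => ?_
    exact hXSL hC i (1 - (a : F)) 1 a (by ring) v
  have h2 : dp C F (Pi.mulSingle i a) = (xp hC hXAD (ng (sr hC i)) (1 / (a : F)))⁻¹ *
      (xp hC hXAD (sr hC i) (1 - (a : F)) * xp hC hXAD (ng (sr hC i)) 1) *
      (xp hC hXAD (sr hC i) ((1 - (a : F)) / (a : F)))⁻¹ := by
    rw [h1]
    group
  rw [h2]
  have hx : ∀ (β : Root C) (t : F), xp hC hXAD β t ∈ Chev C F := fun β t =>
    Subgroup.subset_closure ⟨β, t, fun _ => rfl⟩
  exact mul_mem (mul_mem (inv_mem (hx _ _)) (mul_mem (hx _ _) (hx _ _))) (inv_mem (hx _ _))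

theorem dp_mem (hC : Cartan C) (hXAD : T_XAD) (hXSL : T_XSL) (c : Fin l → Fˣ) :
    dp C F c ∈ Chev C F := by
  have h : c ∈ (Chev C F).comap (dp C F) := by
    rw [← Finset.univ_prod_mulSingle c]
    exact Subgroup.prod_mem _ fun i _ => dp_single_mem hC hXAD hXSL i (c i)
  exact h

/-- the torus -/
def tg (hC : Cartan C) (hXAD : T_XAD) (hXSL : T_XSL) : (Fin l → Fˣ) →* Chev C F :=
  (dp C F).codRestrict (Chev C F) (dp_mem hC hXAD hXSL)

theorem tg_apply (hC : Cartan C) (hXAD : T_XAD) (hXSL : T_XSL) (c : Fin l → Fˣ) (v : Sp C F) :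
    (tg (F := F) hC hXAD hXSL c : Equiv.Perm (Sp C F)) v = Dg c v := rfl

theorem xg_ext {g h : Chev C F} (H : ∀ v, (g : Equiv.Perm (Sp C F)) v = (h : Equiv.Perm _) v) :
    g = h := Subtype.ext (Equiv.ext H)

theorem apply_of_eq {g h : Chev C F} (H : g = h) (v : Sp C F) :
    (g : Equiv.Perm (Sp C F)) v = (h : Equiv.Perm _) v := by rw [H]

theorem mul_ap (g h : Chev C F) (v : Sp C F) :
    ((g * h : Chev C F) : Equiv.Perm (Sp C F)) v =
      (g : Equiv.Perm (Sp C F)) ((h : Equiv.Perm (Sp C F)) v) := rfl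

theorem ug_mem (hC : Cartan C) (hXAD : T_XAD) (p : Root C → Prop) (g : Chev C F)
    (hg : g ∈ Ug (xg hC hXAD) p) :
    (g : Equiv.Perm (Sp C F)) ∈ Subgroup.closure {g : Equiv.Perm (Sp C F) |
      ∃ (β : Root C) (t : F), p β ∧ ∀ z, g z = Xf β t z} := by
  have h : Ug (xg hC hXAD) p ≤ (Subgroup.closure {g : Equiv.Perm (Sp C F) |
      ∃ (β : Root C) (t : F), p β ∧ ∀ z, g z = Xf β t z}).comap (Chev C F).subtype := by
    unfold Ug
    rw [Subgroup.closure_le]
    rintro g ⟨β, t, hβ, rfl⟩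
    exact Subgroup.subset_closure ⟨β, t, hβ, fun _ => rfl⟩
  exact h hg

theorem pf_CDC (hXAD : T_XAD) (hXCM : T_XCM) (hXCO : T_XCO) (hXSL : T_XSL) (hXDG : T_XDG) (hXEB : T_XEB) (hPRN : T_PRN) (hLIN : T_LIN) (hCEN : T_CEN) (hTRI : T_TRI) : T_CDC := by
  intro l C hC hl F _ _
  refine ⟨xg hC hXAD, tg hC hXAD hXSL, ?_, ?_, ?_, ?_, ?_, ?_, ?_, ?_, ?_⟩
  · intro β s t
    exact xg_ext fun v => ((hXAD hC β s t v).1).symm
  · intro β s t h
    obtain ⟨h0, h1⟩ := (hPRN hC (F := F)).1 β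
    have h2 := apply_of_eq h (hb h0)
    rw [xg_apply, xg_apply, (hXEB hC β s).2.2.2 h0, (hXEB hC β t).2.2.2 h0, h1, mul_one,
      mul_one] at h2
    have h3 := congrFun (congrArg Prod.fst h2) β
    simpa [hb, eb] using h3
  · intro β γ δ hδ s t
    exact xg_ext fun v => hXCO hC β γ δ hδ s t v
  · intro β γ h s t
    exact xg_ext fun v => hXCM hC β γ h s t v
  · have h : {g : Chev C F | ∃ β t, g = xg hC hXAD β t} =
        ((↑) : Chev C F → Equiv.Perm (Sp C F)) ⁻¹'
          {g | ∃ (β : Root C) (t : F), ∀ v, g v = Xf β t v} := by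
      ext g
      constructor
      · rintro ⟨β, t, rfl⟩
        exact ⟨β, t, fun _ => rfl⟩
      · rintro ⟨β, t, h⟩
        exact ⟨β, t, xg_ext h⟩
    rw [h]
    exact Subgroup.closure_closure_coe_preimage
  · intro α g h
    have h1 : Cm (g : Equiv.Perm (Sp C F)) α := by
      intro γ hγ t v
      exact apply_of_eq (h γ hγ t) v
    obtain ⟨μ, hμ⟩ := hCEN hC hl (g : Equiv.Perm (Sp C F)) α (hLIN hC _ g.2) h1
    exact ⟨μ, xg_ext hμ⟩
  · intro c β t
    exact xg_ext fun v => hXDG hC c β t v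
  · intro i α α' hα hα' s t c hc
    have h1 : α = sr hC i := Subtype.ext hα
    have h2 : α' = ng (sr hC i) := Subtype.ext hα'
    subst h1
    subst h2
    exact xg_ext fun v => hXSL hC i s t c hc v
  · intro v hv c u hu h
    have h1 := hTRI hC (v : Equiv.Perm (Sp C F)) (u : Equiv.Perm (Sp C F)) c
      (ug_mem hC hXAD IsNeg v hv) (ug_mem hC hXAD IsPos u hu) (fun z => apply_of_eq h z)
    exact ⟨xg_ext h1.1, xg_ext h1.2.1, xg_ext h1.2.2⟩

end Pool.Agent.H76.BCT
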