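import Pool.Agent.H77.BD.Targets

/-!
# Row HEA of board bct_modules: algebra of the Heisenberg group
-/

set_option autoImplicit false

open Set Matrix Pool.Agent.H77.BC Pool.Agent.H77.BD

namespace Pool.Agent.H76.BCT

section Hei

variable {F Γ : Type} [Field F] [Group Γ] {k : ℕ} {X Y : (Fin k → F) → Γ} {Z : F → Γ}

/-- the product -/
def Wp (X Y : (Fin k → F) → Γ) (Z : F → Γ) (a b : Fin k → F) (z : F) : Γ := X a * Y b * Z z

theorem hX0 (H : HS X Y Z) : X 0 = 1 := by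
  have h := H.hX 0 0
  rw [add_zero] at h
  exact left_eq_mul.mp h

theorem hY0 (H : HS X Y Z) : Y 0 = 1 := by
  have h := H.hY 0 0
  rw [add_zero] at h
  exact left_eq_mul.mp h

theorem hZ0 (H : HS X Y Z) : Z 0 = 1 := by
  have h := H.hZ 0 0
  rw [add_zero] at h
  exact left_eq_mul.mp h

theorem wp_mul (H : HS X Y Z) (a b a' b' : Fin k → F) (z z' : F) :
    Wp X Y Z a b z * Wp X Y Z a' b' z' = Wp X Y Z (a + a') (b + b') (z + z' - a' ⬝ᵥ b) := by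
  have h1 : Y b * X a' = Z (-(a' ⬝ᵥ b)) * (X a' * Y b) := by
    rw [H.hXY a' b, ← mul_assoc, ← H.hZ, neg_add_cancel, hZ0 H, one_mul]
  unfold Wp
  calc X a * Y b * Z z * (X a' * Y b' * Z z')
      = X a * Y b * (Z z * X a') * Y b' * Z z' := by group
    _ = X a * (Y b * X a') * (Z z * Y b') * Z z' := by rw [← H.hXZ a' z]; group
    _ = X a * (Z (-(a' ⬝ᵥ b)) * (X a' * Y b)) * (Y b' * Z z) * Z z' := by rw [h1, ← H.hYZ b' z]
    _ = X a * (Z (-(a' ⬝ᵥ b)) * X a') * Y b * Y b' * Z z * Z z' := by group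
    _ = X a * X a' * (Z (-(a' ⬝ᵥ b)) * Y b) * Y b' * Z z * Z z' := by
        rw [← H.hXZ a' (-(a' ⬝ᵥ b))]; group
    _ = X a * X a' * Y b * (Z (-(a' ⬝ᵥ b)) * Y b') * Z z * Z z' := by
        rw [← H.hYZ b (-(a' ⬝ᵥ b))]; group
    _ = (X a * X a') * (Y b * Y b') * (Z (-(a' ⬝ᵥ b)) * Z z * Z z') := by
        rw [← H.hYZ b' (-(a' ⬝ᵥ b))]; group
    _ = X (a + a') * Y (b + b') * Z (z + z' - a' ⬝ᵥ b) := by
        rw [← H.hX, ← H.hY, ← H.hZ, ← H.hZ]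
        congr 2
        ring

theorem wp_zero (H : HS X Y Z) : Wp X Y Z 0 0 0 = 1 := by
  unfold Wp
  rw [hX0 H, hY0 H, hZ0 H, one_mul, one_mul]

theorem wp_inv (H : HS X Y Z) (a b : Fin k → F) (z : F) :
    (Wp X Y Z a b z)⁻¹ = Wp X Y Z (-a) (-b) (-z - a ⬝ᵥ b) := by
  refine inv_eq_of_mul_eq_one_right ?_
  rw [wp_mul H, add_neg_cancel, add_neg_cancel, neg_dotProduct]
  have : z + (-z - a ⬝ᵥ b) - -(a ⬝ᵥ b) = 0 := by ring
  rw [this, wp_zero H]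

theorem wp_z_inj (H : HS X Y Z) (a b : Fin k → F) (z z' : F)
    (h : Wp X Y Z a b z = Wp X Y Z a b z') : z = z' := H.inj _ _ (mul_left_cancel h)

theorem wp_one (H : HS X Y Z) (a b : Fin k → F) (z : F) (h : Wp X Y Z a b z = 1) :
    a = 0 ∧ b = 0 ∧ z = 0 := by
  have ha : a = 0 := by
    funext i
    have h1 : Wp X Y Z a b z * Wp X Y Z 0 (Pi.single i 1) 0 =
        Wp X Y Z 0 (Pi.single i 1) 0 * Wp X Y Z a b z := by rw [h, one_mul, mul_one]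
    rw [wp_mul H, wp_mul H, zero_dotProduct, add_zero, zero_add, add_comm (Pi.single i 1) b,
      zero_add, add_zero, sub_zero, dotProduct_single_one] at h1
    have h2 := wp_z_inj H _ _ _ _ h1
    have h3 : a i = 0 := by linear_combination h2
    exact h3
  have hb : b = 0 := by
    funext i
    have h1 : Wp X Y Z a b z * Wp X Y Z (Pi.single i 1) 0 0 =
        Wp X Y Z (Pi.single i 1) 0 0 * Wp X Y Z a b z := by rw [h, one_mul, mul_one]
    rw [wp_mul H, wp_mul H, dotProduct_zero, add_zero, zero_add, add_comm (Pi.single i 1) a,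
      zero_add, add_zero, sub_zero, single_one_dotProduct] at h1
    have h2 := wp_z_inj H _ _ _ _ h1
    have h3 : b i = 0 := by linear_combination -h2
    exact h3
  refine ⟨ha, hb, ?_⟩
  rw [ha, hb, ← wp_zero H] at h
  exact wp_z_inj H _ _ _ _ h

end Hei

theorem pf_HEA : T_HEA := by
  intro F Γ _ _ k X Y Z H
  refine ⟨?_, ?_, ?_⟩
  · rintro ⟨⟨a, b⟩, z⟩ ⟨⟨a', b'⟩, z'⟩ h
    have h1 : Wp X Y Z a b z = Wp X Y Z a' b' z' := h
    have h2 : Wp X Y Z a b z * (Wp X Y Z a' b' z')⁻¹ = 1 := by rw [h1, mul_inv_cancel]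
    rw [wp_inv H, wp_mul H] at h2
    obtain ⟨h3, h4, h5⟩ := wp_one H _ _ _ h2
    have h6 : a = a' := by rwa [← sub_eq_add_neg, sub_eq_zero] at h3
    have h7 : b = b' := by rwa [← sub_eq_add_neg, sub_eq_zero] at h4
    subst h6
    subst h7
    rw [neg_dotProduct] at h5
    have h8 : z = z' := by linear_combination h5
    rw [h8]
  · refine ⟨⟨⟨⟨range (fun q : ((Fin k → F) × (Fin k → F)) × F => X q.1.1 * Y q.1.2 * Z q.2),
      ?_⟩, ?_⟩, ?_⟩, rfl⟩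
    · rintro _ _ ⟨⟨⟨a, b⟩, z⟩, rfl⟩ ⟨⟨⟨a', b'⟩, z'⟩, rfl⟩
      exact ⟨((a + a', b + b'), z + z' - a' ⬝ᵥ b), (wp_mul H a b a' b' z z').symm⟩
    · exact ⟨((0, 0), 0), wp_zero H⟩
    · rintro _ ⟨⟨⟨a, b⟩, z⟩, rfl⟩
      exact ⟨((-a, -b), -z - a ⬝ᵥ b), (wp_inv H a b z).symm⟩
  · intro K
    refine ⟨⟨⟨⟨{u | ∃ z, X u.1 * Y u.2 * Z z ∈ K}, ?_⟩, ?_⟩, ?_⟩, fun u => Iff.rfl, ?_⟩
    · rintro ⟨a, b⟩ ⟨a', b'⟩ ⟨z, hz⟩ ⟨z', hz'⟩
      refine ⟨z + z' - a' ⬝ᵥ b, ?_⟩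
      have h := mul_mem hz hz'
      have h1 := wp_mul H a b a' b' z z'
      unfold Wp at h1
      rw [h1] at h
      exact h
    · exact ⟨0, by
        have h := wp_zero H
        unfold Wp at h
        show X 0 * Y 0 * Z 0 ∈ K
        rw [h]
        exact one_mem _⟩
    · rintro ⟨a, b⟩ ⟨z, hz⟩
      refine ⟨-z - a ⬝ᵥ b, ?_⟩
      have h := inv_mem hz
      have h1 := wp_inv H a b z
      unfold Wp at h1
      rw [h1] at h
      exact h
    · rintro ⟨a, b⟩ ⟨z, hz⟩ ⟨a', b'⟩ ⟨z', hz'⟩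
      have h1 := mul_mem (inv_mem (mul_mem hz' hz)) (mul_mem hz hz')
      have h2 : (Wp X Y Z a' b' z' * Wp X Y Z a b z)⁻¹ * (Wp X Y Z a b z * Wp X Y Z a' b' z') =
          Z (a ⬝ᵥ b' - a' ⬝ᵥ b) := by
        rw [wp_mul H, wp_mul H, inv_mul_eq_iff_eq_mul]
        unfold Wp
        rw [mul_assoc (X (a' + a) * Y (b' + b)), ← H.hZ, add_comm a a', add_comm b b']
        congr 2
        ring
      unfold Wp at h2
      rw [h2] at h1
      exact h1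

end Pool.Agent.H76.BCT
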